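import Pool.Agent.Q131.Perc.Base

/-!
Large minimal percolating sets for 2-neighbour bootstrap percolation on the `n × n` grid: the limit of
`E(n) / n ^ 2` is at least `2 / 15`, hence it is not `4 / 33`.
-/

set_option autoImplicit false

namespace Pool.Agent.Results.MP_849d81_co.TwoFifteenths

/-- Two sites of the `n × n` grid are adjacent when they differ by `1` in exactly one coordinate. -/
def Adj {n : ℕ} (u v : Fin n × Fin n) : Prop :=
  (u.1 = v.1 ∧ (u.2.val + 1 = v.2.val ∨ v.2.val + 1 = u.2.val)) ∨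
  (u.2 = v.2 ∧ (u.1.val + 1 = v.1.val ∨ v.1.val + 1 = u.1.val))

/-- One step: the infected sites stay infected, and a site with two infected neighbours (at least)
becomes infected. -/
def step {n : ℕ} (A : Set (Fin n × Fin n)) : Set (Fin n × Fin n) :=
  {v | v ∈ A ∨ ∃ u w, u ≠ w ∧ Adj u v ∧ Adj w v ∧ u ∈ A ∧ w ∈ A}

/-- Every site is eventually infected. -/
def Percolates {n : ℕ} (A : Set (Fin n × Fin n)) : Prop := ∀ v, ∃ t : ℕ, v ∈ step^[t] A

/-- `A` percolates and no proper subset of `A` percolates. -/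
def MinimalPercolating {n : ℕ} (A : Finset (Fin n × Fin n)) : Prop :=
  Percolates (A : Set (Fin n × Fin n)) ∧
    ∀ B : Finset (Fin n × Fin n), B ⊂ A → ¬ Percolates (B : Set (Fin n × Fin n))

/-- `E n`: the largest cardinality of a minimal percolating set of the `n × n` grid. -/
noncomputable def E (n : ℕ) : ℕ :=
  sSup {k : ℕ | ∃ A : Finset (Fin n × Fin n), MinimalPercolating A ∧ A.card = k}

open Pool.Agent.Q131.Perc in
theorem transfer {n : ℕ} (hn : 1 ≤ n) {A : Finset (ℤ × ℤ)} (hA : TL n n A) :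
    ∃ A' : Finset (Fin n × Fin n), MinimalPercolating A' ∧ A'.card = A.card := by
  classical
  let e : Fin n × Fin n → ℤ × ℤ := fun v => (((v.1 : ℕ) : ℤ), ((v.2 : ℕ) : ℤ))
  have he : Function.Injective e := by
    rintro ⟨a, b⟩ ⟨c, d⟩ h
    simp only [e, Prod.mk.injEq] at h
    refine Prod.ext (Fin.ext ?_) (Fin.ext ?_) <;> simp only <;> omega
  have hrange : ∀ v : ℤ × ℤ, v ∈ Rect 0 ((n : ℤ) - 1) 0 ((n : ℤ) - 1) → ∃ u, e u = v := by
    rintro ⟨a, b⟩ hv
    rw [mem_Rect] at hv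
    refine ⟨(⟨a.toNat, by omega⟩, ⟨b.toNat, by omega⟩), ?_⟩
    simp only [e, Prod.mk.injEq]
    omega
  have hmem : ∀ u, e u ∈ Rect 0 ((n : ℤ) - 1) 0 ((n : ℤ) - 1) := by
    rintro ⟨a, b⟩
    simp only [e]
    rw [mem_Rect]
    omega
  have hadj : ∀ u v, TwoFifteenths.Adj u v ↔ Pool.Agent.Q131.Perc.Adj (e u) (e v) := by
    rintro ⟨a, b⟩ ⟨c, d⟩
    simp only [TwoFifteenths.Adj, Pool.Agent.Q131.Perc.Adj, e, Fin.ext_iff]
    omega
  let A' : Finset (Fin n × Fin n) := Finset.univ.filter fun v => e v ∈ A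
  have hA' : ∀ v, v ∈ A' ↔ e v ∈ A := fun v => by simp [A']
  refine ⟨A', ⟨?_, ?_⟩, ?_⟩
  · -- percolation
    have mono : ∀ (t : ℕ) (k : ℕ), step^[t] (A' : Set (Fin n × Fin n)) ⊆ step^[t + k] (A' : Set _) := by
      intro t k
      induction k with
      | zero => exact subset_rfl
      | succ k ih =>
        refine ih.trans ?_
        rw [← add_assoc, Function.iterate_succ_apply']
        exact fun v hv => Or.inl hv
    have hcl : Closed {v : ℤ × ℤ | ∃ u, e u = v ∧ ∃ t : ℕ, u ∈ step^[t] (A' : Set (Fin n × Fin n))} := by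
      rintro u v w h1 h2 hne ⟨u', rfl, t1, hu⟩ ⟨w', rfl, t2, hw⟩
      have hv := closed_rect 0 ((n : ℤ) - 1) 0 ((n : ℤ) - 1) _ _ _ h1 h2 hne (hmem u') (hmem w')
      obtain ⟨v', rfl⟩ := hrange v hv
      refine ⟨v', rfl, t1 + t2 + 1, ?_⟩
      rw [Function.iterate_succ_apply']
      refine Or.inr ⟨u', w', fun h => hne (by rw [h]), (hadj _ _).mpr h1, (hadj _ _).mpr h2,
        mono t1 t2 hu, ?_⟩
      rw [add_comm t1 t2]
      exact mono t2 t1 hw
    intro v
    have h1 := hA.span _ hcl (fun u hu => by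
      obtain ⟨u', rfl⟩ := hrange u (hA.sub u hu)
      exact ⟨u', rfl, 0, (hA' u').mpr hu⟩) (hmem v)
    obtain ⟨u, hu, t, ht⟩ := h1
    rw [← he hu]
    exact ⟨t, ht⟩
  · intro B hB hperc
    obtain ⟨hBA, x, hxA, hxB⟩ := Finset.ssubset_iff_of_subset hB.1 |>.mp hB |> fun h => (⟨hB.1, h⟩ :
      B ⊆ A' ∧ ∃ x ∈ A', x ∉ B)
    obtain ⟨S, h1, h2, h3, h4⟩ := hA.crit (e x) ((hA' x).mp hxA)
    have key : ∀ (t : ℕ) (v : Fin n × Fin n), v ∈ step^[t] (B : Set (Fin n × Fin n)) → e v ∈ S := by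
      intro t
      induction t with
      | zero =>
        intro v hv
        have hv' : v ∈ B := hv
        refine h2 _ ((hA' v).mp (hBA hv')) fun h => hxB ?_
        rw [← he h]
        exact hv'
      | succ t ih =>
        intro v hv
        rw [Function.iterate_succ_apply'] at hv
        rcases hv with hv | ⟨u, w, hne, a1, a2, a3, a4⟩
        · exact ih v hv
        · exact h1 _ _ _ ((hadj _ _).mp a1) ((hadj _ _).mp a2) (fun h => hne (he h)) (ih u a3)
            (ih w a4)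
    obtain ⟨t, ht⟩ := hperc (⟨n - 1, by omega⟩, ⟨0, by omega⟩)
    apply h4
    have h5 := key t _ ht
    have h6 : e (⟨n - 1, by omega⟩, ⟨0, by omega⟩) = ((n : ℤ) - 1, 0) := by
      simp only [e, Prod.mk.injEq]
      omega
    rwa [h6] at h5
  · have h1 : A'.image e = A := by
      ext v
      rw [Finset.mem_image]
      constructor
      · rintro ⟨u, hu, rfl⟩
        exact (hA' u).mp hu
      · intro hv
        obtain ⟨u, rfl⟩ := hrange v (hA.sub v hv)
        exact ⟨u, (hA' u).mpr hv, rfl⟩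
    rw [← h1, Finset.card_image_of_injective _ he]

theorem card_le_E {n : ℕ} {A : Finset (Fin n × Fin n)} (hA : MinimalPercolating A) :
    A.card ≤ E n := by
  refine le_csSup ⟨Fintype.card (Fin n × Fin n), ?_⟩ ⟨A, hA, rfl⟩
  rintro k ⟨B, -, rfl⟩
  exact Finset.card_le_univ B

theorem bound (n : ℕ) (hn : 17 ≤ n) : 2 * n ^ 2 ≤ 15 * E n + 2 * n * (2 * Nat.log 2 n + 1) := by
  obtain ⟨s, r, hs, hr, hns⟩ : ∃ s r : ℕ, 4 ≤ s ∧ r ≤ 4 ∧ n + 3 = 5 * s + r :=
    ⟨(n + 3) / 5, (n + 3) % 5, by omega, by omega, by omega⟩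
  have hlog : s ≤ 2 ^ Nat.log 2 n := by
    have h1 : n < 2 ^ (Nat.log 2 n + 1) := Nat.lt_pow_succ_log_self (by norm_num) n
    rw [pow_succ] at h1
    omega
  generalize Nat.log 2 n = d at *
  by_cases hd : 2 * d + 2 ≤ n
  · obtain ⟨A, hA, hc⟩ := Pool.Agent.Q131.Perc.strips d s r n (by omega) hlog (by omega) hd
    have e1 : 5 * (s : ℤ) - 3 + r = n := by omega
    rw [e1] at hA
    obtain ⟨A', hA', hc'⟩ := transfer (by omega) hA
    have h1 := card_le_E hA'
    rw [hc'] at h1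
    obtain ⟨m, hm⟩ : ∃ m, n = m + 2 * d := ⟨n - 2 * d, by omega⟩
    have e2 : n - 2 * d = m := by omega
    rw [e2] at hc
    have h2 : 2 * s * m ≤ 3 * E n := by omega
    have h3 : n ≤ 5 * s + 1 := by omega
    have h4 : 2 * n * m ≤ 15 * E n + 2 * m := by nlinarith
    have h5 : m ≤ n := by omega
    nlinarith
  · have : n ≤ 2 * d + 1 := by omega
    nlinarith

/-- **Main theorem.** For `n ≥ 17` the largest size `E n` of a minimal percolating set of the `n × n`
grid satisfies `15 E n ≥ 2 n² - 2 n (2 ⌊log₂ n⌋ + 1)`. Hence every limit of `E n / n²` is at least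
`2 / 15`, and `E n / n²` does not tend to `4 / 33`. -/
theorem result :
    (∀ n : ℕ, 17 ≤ n → 2 * n ^ 2 ≤ 15 * E n + 2 * n * (2 * Nat.log 2 n + 1)) ∧
    (∀ ε : ℝ, 0 < ε → ∀ᶠ n : ℕ in Filter.atTop, 2 / 15 - ε ≤ (E n : ℝ) / (n : ℝ) ^ 2) ∧
    (∀ c : ℝ, Filter.Tendsto (fun n : ℕ => (E n : ℝ) / (n : ℝ) ^ 2) Filter.atTop (nhds c) →
      2 / 15 ≤ c ∧ 4 / 33 < c) ∧
    ¬ Filter.Tendsto (fun n : ℕ => (E n : ℝ) / (n : ℝ) ^ 2) Filter.atTop (nhds (4 / 33)) := by
  have ev : ∀ ε : ℝ, 0 < ε → ∀ᶠ n : ℕ in Filter.atTop, 2 / 15 - ε ≤ (E n : ℝ) / (n : ℝ) ^ 2 := by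
    intro ε hε
    have hlim : Filter.Tendsto (fun n : ℕ => Real.log n / (n : ℝ)) Filter.atTop (nhds 0) := by
      have := Real.isLittleO_log_id_atTop.tendsto_div_nhds_zero
      exact this.comp tendsto_natCast_atTop_atTop
    have hlim2 : Filter.Tendsto (fun n : ℕ => (1 : ℝ) / (n : ℝ)) Filter.atTop (nhds 0) :=
      tendsto_one_div_atTop_nhds_zero_nat
    have hl2 : 0 < Real.log 2 := Real.log_pos (by norm_num)
    have h1 := (hlim.const_mul (4 / (15 * Real.log 2))).add (hlim2.const_mul (2 / 15))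
    rw [mul_zero, mul_zero, add_zero] at h1
    filter_upwards [h1.eventually (gt_mem_nhds hε), Filter.eventually_ge_atTop 17] with n h2 hn
    have hb := bound n hn
    have hn0 : (0 : ℝ) < n := by
      have : (17 : ℝ) ≤ n := by exact_mod_cast hn
      linarith
    have hb' : 2 * (n : ℝ) ^ 2 ≤ 15 * (E n : ℝ) + 2 * n * (2 * (Nat.log 2 n : ℝ) + 1) := by
      exact_mod_cast hb
    have hlog : (Nat.log 2 n : ℝ) ≤ Real.log n / Real.log 2 := by
      have := Real.natLog_le_logb n 2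
      rwa [Real.logb] at this
    have h3 : (Nat.log 2 n : ℝ) * Real.log 2 ≤ Real.log n := by
      rwa [le_div_iff₀ hl2] at hlog
    rw [le_div_iff₀ (by positivity)]
    have h4 : 4 / (15 * Real.log 2) * (Real.log n / n) + 2 / 15 * (1 / n) =
        (4 * (Real.log n / Real.log 2) + 2) / (15 * n) := by
      field_simp
    rw [h4, div_lt_iff₀ (by positivity)] at h2
    nlinarith [mul_le_mul_of_nonneg_left hlog hn0.le, mul_lt_mul_of_pos_left h2 hn0]
  have lim : ∀ c : ℝ, Filter.Tendsto (fun n : ℕ => (E n : ℝ) / (n : ℝ) ^ 2) Filter.atTop (nhds c) →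
      2 / 15 ≤ c := by
    intro c hc
    refine le_of_forall_pos_le_add fun ε hε => ?_
    have := ge_of_tendsto hc (ev ε hε)
    linarith
  refine ⟨bound, ev, fun c hc => ⟨lim c hc, ?_⟩, fun h => ?_⟩
  · have := lim c hc
    linarith
  · have := lim _ h
    norm_num at this

end Pool.Agent.Results.MP_849d81_co.TwoFifteenths
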